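import Pool.Agent.Helper9.PS.Abs2

/-!
# Compactness of Palais-Smale sequences from an energy bound for smooth ones
-/

open MeasureTheory Filter Topology
open scoped ENNReal

set_option linter.unusedSectionVars false

namespace Pool.Agent.Helper9.PS

section Shift

variable {M : Type*} [MeasurableSpace M] {vol : Measure M} [IsProbabilityMeasure vol]
  {H : Type*} [NormedAddCommGroup H] [InnerProductSpace ℝ H]
  {ι : H →L[ℝ] Lp ℝ 2 vol} (hE : ExpBd ι) {h : M → ℝ} (hm : Measurable h) {K : ℝ}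
  (hK : ∀ x, |h x| ≤ K) (lam : ℝ) (hpos : ∀ x, 0 < h x)
  {e : H} (he : ι e = one2 vol) (he' : ∀ v : H, inner ℝ v e = inner ℝ (ι v) (ι e))

include he in
theorem ae_shift (v : H) (t : ℝ) : ∀ᵐ x ∂vol, ι (v + t • e) x = ι v x + t := by
  rw [map_add, map_smul, he]
  filter_upwards [Lp.coeFn_add (ι v) (t • one2 vol), Lp.coeFn_smul t (one2 vol),
    (memLp_const (μ := vol) (p := 2) (1 : ℝ)).coeFn_toLp] with x h1 h2 h3
  rw [h1, Pi.add_apply, h2, Pi.smul_apply, one2, h3]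
  simp

include he in
theorem FF_shift (v : H) (t : ℝ) : ∫ x, h x * Real.exp (ι (v + t • e) x) ∂vol =
    Real.exp t * ∫ x, h x * Real.exp (ι v x) ∂vol := by
  rw [← integral_const_mul]
  refine integral_congr_ae ?_
  filter_upwards [ae_shift he v t] with x hx
  rw [hx, Real.exp_add]
  ring

include he in
theorem FF_shift_mul (v φ : H) (t : ℝ) :
    ∫ x, h x * Real.exp (ι (v + t • e) x) * ι φ x ∂vol =
    Real.exp t * ∫ x, h x * Real.exp (ι v x) * ι φ x ∂vol := by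
  rw [← integral_const_mul]
  refine integral_congr_ae ?_
  filter_upwards [ae_shift he v t] with x hx
  rw [hx, Real.exp_add]
  ring

include hE in
theorem integrable_ι (v : H) : Integrable (fun x => ι v x) vol := by
  exact (Lp.memLp (ι v)).integrable one_le_two

include hE he in
theorem int_shift (v : H) (t : ℝ) : ∫ x, ι (v + t • e) x ∂vol = (∫ x, ι v x ∂vol) + t := by
  rw [integral_congr_ae (ae_shift he v t), integral_add (integrable_ι hE v) (integrable_const t)]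
  simp

include he' in
theorem dir_shift (v : H) (t : ℝ) :
    ‖v + t • e‖ ^ 2 - ‖ι (v + t • e)‖ ^ 2 = ‖v‖ ^ 2 - ‖ι v‖ ^ 2 := by
  have h1 : ‖v + t • e‖ ^ 2 = ‖v‖ ^ 2 + 2 * (t * inner ℝ v e) + t ^ 2 * ‖e‖ ^ 2 := by
    rw [norm_add_sq_real, real_inner_smul_right, norm_smul, mul_pow, Real.norm_eq_abs, sq_abs]
  have h2 : ‖ι (v + t • e)‖ ^ 2 =
      ‖ι v‖ ^ 2 + 2 * (t * inner ℝ (ι v) (ι e)) + t ^ 2 * ‖ι e‖ ^ 2 := by
    rw [map_add, map_smul, norm_add_sq_real, real_inner_smul_right, norm_smul, mul_pow,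
      Real.norm_eq_abs, sq_abs]
  have h3 : ‖e‖ ^ 2 = ‖ι e‖ ^ 2 := by
    rw [← real_inner_self_eq_norm_sq, ← real_inner_self_eq_norm_sq]
    exact he' e
  rw [h1, h2, he' v, h3]
  ring

include hE hm hK hpos he he' in
theorem JJ_shift (v : H) (t : ℝ) : JJ ι h lam (v + t • e) = JJ ι h lam v := by
  unfold JJ
  rw [dir_shift he', int_shift hE he, FF_shift he,
    Real.log_mul (Real.exp_pos t).ne' (FF_pos hE hm hK hpos v).ne', Real.log_exp]
  ring

include hpos he he' in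
theorem dJ_shift (v : H) (t : ℝ) : dJ hE hm hK lam (v + t • e) = dJ hE hm hK lam v := by
  ext φ
  rw [dJ_apply, dJ_apply, FF_shift he, FF_shift_mul he]
  have h1 : inner ℝ (v + t • e) φ - inner ℝ (ι (v + t • e)) (ι φ) =
      inner ℝ v φ - inner ℝ (ι v) (ι φ) := by
    rw [map_add, map_smul, inner_add_left, inner_add_left, real_inner_smul_left,
      real_inner_smul_left, real_inner_comm φ e, real_inner_comm (ι φ) (ι e), he' φ]
    ring
  rw [h1]
  have h2 := (FF_pos hE hm hK hpos v).ne'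
  have h3 := (Real.exp_pos t).ne'
  rw [mul_inv]
  have : (Real.exp t)⁻¹ * (∫ x, h x * Real.exp (ι v x) ∂vol)⁻¹ *
      (Real.exp t * ∫ x, h x * Real.exp (ι v x) * ι φ x ∂vol) =
      (∫ x, h x * Real.exp (ι v x) ∂vol)⁻¹ * ∫ x, h x * Real.exp (ι v x) * ι φ x ∂vol := by
    field_simp
  rw [this]

end Shift

section PSseq

variable {M : Type*} [MeasurableSpace M] {vol : Measure M} [IsProbabilityMeasure vol]
  {H : Type*} [NormedAddCommGroup H] [InnerProductSpace ℝ H]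
  {ι : H →L[ℝ] Lp ℝ 2 vol} (hE : ExpBd ι) {h : M → ℝ} (hm : Measurable h) {K : ℝ}
  (hK : ∀ x, |h x| ≤ K) (lam : ℝ) (hlam : 0 < lam) (hpos : ∀ x, 0 < h x)
  {e : H} (he : ι e = one2 vol) (he' : ∀ v : H, inner ℝ v e = inner ℝ (ι v) (ι e))

/-- energy identity for the difference of two functions. -/
theorem diff_identity (v w : H) (hv : ∫ x, h x * Real.exp (ι v x) ∂vol = 1)
    (hw : ∫ x, h x * Real.exp (ι w x) ∂vol = 1) :
    ‖v - w‖ ^ 2 = ‖ι v - ι w‖ ^ 2 + (dJ hE hm hK lam v - dJ hE hm hK lam w) (v - w)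
      + lam * inner ℝ (GG hE hm hK v - GG hE hm hK w) (ι v - ι w) := by
  have e1 : (dJ hE hm hK lam v - dJ hE hm hK lam w) (v - w) =
      inner ℝ (v - w) (v - w) - inner ℝ (ι v - ι w) (ι v - ι w)
      - lam * inner ℝ (GG hE hm hK v - GG hE hm hK w) (ι v - ι w) := by
    simp only [dJ, hv, hw, inv_one, mul_one, sub_apply, add_apply, smul_apply,
      ContinuousLinearMap.comp_apply, innerSL_apply_apply, smul_eq_mul, map_sub,
      inner_sub_left, inner_sub_right]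
    ring
  rw [e1, real_inner_self_eq_norm_sq, real_inner_self_eq_norm_sq]
  ring

include hlam hpos he he' in
/-- Abstract form of the compactness of Palais-Smale sequences. -/
theorem ps_abstract [CompleteSpace H] (hn : ∀ v : H, ‖ι v‖ ≤ ‖v‖)
    (S : Set H) (hS : Dense S) (hS1 : ∀ v ∈ S, ∀ t : ℝ, v + t • e ∈ S)
    (hSB : ∀ (v : ℕ → H) (c : ℝ), (∀ n, v n ∈ S) →
      (∀ n, ∫ x, h x * Real.exp (ι (v n) x) ∂vol = 1) →
      Tendsto (fun n => JJ ι h lam (v n)) atTop (𝓝 c) →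
      Tendsto (fun n => ‖dJ hE hm hK lam (v n)‖) atTop (𝓝 0) →
      ∃ C, ∃ᶠ n in atTop, ‖v n‖ ^ 2 - ‖ι (v n)‖ ^ 2 ≤ C)
    (hPoin : ∀ Y : ℝ, ∃ B : ℝ, ∀ v ∈ S, ‖v‖ ^ 2 - ‖ι v‖ ^ 2 ≤ Y → |∫ x, ι v x ∂vol| ≤ Y → ‖v‖ ≤ B)
    (hRel : ∀ (v : ℕ → H) (B : ℝ), (∀ n, v n ∈ S) → (∀ n, ‖v n‖ ≤ B) →
      ∃ φ : ℕ → ℕ, StrictMono φ ∧ CauchySeq (fun n => ι (v (φ n))))
    (u : ℕ → H) (c : ℝ) (hu1 : ∀ n, ∫ x, h x * Real.exp (ι (u n) x) ∂vol = 1)
    (hJ : Tendsto (fun n => JJ ι h lam (u n)) atTop (𝓝 c))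
    (hd : Tendsto (fun n => ‖fderiv ℝ (JJ ι h lam) (u n)‖) atTop (𝓝 0)) :
    ∃ φ : ℕ → ℕ, StrictMono φ ∧ ∃ v, Tendsto (fun n => u (φ n)) atTop (𝓝 v) := by
  -- smooth approximation
  have happ : ∀ n : ℕ, ∃ w ∈ S, ‖w - u n‖ < 1 / (n + 1 : ℝ) ∧
      |JJ ι h lam w - JJ ι h lam (u n)| < 1 / (n + 1 : ℝ) ∧
      ‖dJ hE hm hK lam w - dJ hE hm hK lam (u n)‖ < 1 / (n + 1 : ℝ) ∧
      |Real.log (∫ x, h x * Real.exp (ι w x) ∂vol)| < 1 / (n + 1 : ℝ) := by
    intro n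
    have hε : (0 : ℝ) < 1 / (n + 1 : ℝ) := by positivity
    have c1 : ∀ᶠ w in 𝓝 (u n), ‖w - u n‖ < 1 / (n + 1 : ℝ) := by
      filter_upwards [Metric.ball_mem_nhds (u n) hε] with w hw
      rwa [Metric.mem_ball, dist_eq_norm] at hw
    have c2 : ∀ᶠ w in 𝓝 (u n), |JJ ι h lam w - JJ ι h lam (u n)| < 1 / (n + 1 : ℝ) := by
      have hc : Continuous (JJ ι h lam) := (contDiff_JJ hE hm hK lam hpos).continuous
      have := Metric.tendsto_nhds.mp (hc.tendsto (u n)) _ hε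
      simpa [Real.dist_eq] using this
    have c3 : ∀ᶠ w in 𝓝 (u n),
        ‖dJ hE hm hK lam w - dJ hE hm hK lam (u n)‖ < 1 / (n + 1 : ℝ) := by
      have hc := continuous_dJ hE hm hK lam hpos
      have := Metric.tendsto_nhds.mp (hc.tendsto (u n)) _ hε
      simpa [dist_eq_norm] using this
    have c4 : ∀ᶠ w in 𝓝 (u n),
        |Real.log (∫ x, h x * Real.exp (ι w x) ∂vol)| < 1 / (n + 1 : ℝ) := by
      have hc : ContinuousAt (fun w : H => Real.log (∫ x, h x * Real.exp (ι w x) ∂vol)) (u n) :=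
        ((hasFDerivAt_FF hE hm hK (u n)).log (FF_pos hE hm hK hpos (u n)).ne').continuousAt
      have := Metric.tendsto_nhds.mp hc _ hε
      simpa [Real.dist_eq, hu1 n] using this
    obtain ⟨w, hw, hwS⟩ := mem_closure_iff_nhds.mp (hS (u n)) _ (c1.and (c2.and (c3.and c4)))
    exact ⟨w, hwS, hw⟩
  choose w hwS hw1 hw2 hw3 hw4 using happ
  set t : ℕ → ℝ := fun n => -Real.log (∫ x, h x * Real.exp (ι (w n) x) ∂vol) with ht
  set v : ℕ → H := fun n => w n + t n • e with hv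
  have hvS : ∀ n, v n ∈ S := fun n => hS1 _ (hwS n) _
  have hv1 : ∀ n, ∫ x, h x * Real.exp (ι (v n) x) ∂vol = 1 := by
    intro n
    rw [hv]
    simp only
    rw [FF_shift he, ht]
    simp only
    rw [Real.exp_neg, Real.exp_log (FF_pos hE hm hK hpos (w n)),
      inv_mul_cancel₀ (FF_pos hE hm hK hpos (w n)).ne']
  have hε0 : Tendsto (fun n : ℕ => 1 / (n + 1 : ℝ)) atTop (𝓝 0) :=
    tendsto_one_div_add_atTop_nhds_zero_nat
  have hvJ : Tendsto (fun n => JJ ι h lam (v n)) atTop (𝓝 c) := by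
    have h1 : Tendsto (fun n => JJ ι h lam (v n) - JJ ι h lam (u n)) atTop (𝓝 0) := by
      refine squeeze_zero_norm (fun n => ?_) hε0
      rw [hv]
      simp only
      rw [JJ_shift hE hm hK lam hpos he he', Real.norm_eq_abs]
      exact (hw2 n).le
    have := h1.add hJ
    simpa using this
  have hdu : Tendsto (fun n => ‖dJ hE hm hK lam (u n)‖) atTop (𝓝 0) := by
    refine hd.congr fun n => ?_
    rw [fderiv_JJ hE hm hK lam hpos]
  have hvd : Tendsto (fun n => ‖dJ hE hm hK lam (v n)‖) atTop (𝓝 0) := by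
    have h2 : Tendsto (fun n : ℕ => 1 / (n + 1 : ℝ) + ‖dJ hE hm hK lam (u n)‖) atTop (𝓝 0) := by
      simpa using hε0.add hdu
    refine squeeze_zero (fun n => norm_nonneg _) (fun n => ?_) h2
    rw [hv]
    simp only
    rw [dJ_shift hE hm hK lam hpos he he']
    calc ‖dJ hE hm hK lam (w n)‖ = ‖(dJ hE hm hK lam (w n) - dJ hE hm hK lam (u n))
          + dJ hE hm hK lam (u n)‖ := by rw [sub_add_cancel]
      _ ≤ ‖dJ hE hm hK lam (w n) - dJ hE hm hK lam (u n)‖ + ‖dJ hE hm hK lam (u n)‖ :=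
          norm_add_le _ _
      _ ≤ _ := by
          have := (hw3 n).le
          linarith
  have hdiff : Tendsto (fun n => u n - v n) atTop (𝓝 0) := by
    have h2 : Tendsto (fun n : ℕ => 1 / (n + 1 : ℝ) + 1 / (n + 1 : ℝ) * ‖e‖) atTop (𝓝 0) := by
      simpa using hε0.add (hε0.mul_const ‖e‖)
    refine squeeze_zero_norm (fun n => ?_) h2
    have h3 : u n - v n = -(w n - u n) - t n • e := by
      rw [hv]; simp only; abel
    rw [h3]
    calc ‖-(w n - u n) - t n • e‖ ≤ ‖-(w n - u n)‖ + ‖t n • e‖ := norm_sub_le _ _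
      _ ≤ 1 / (n + 1 : ℝ) + 1 / (n + 1 : ℝ) * ‖e‖ := by
          rw [norm_neg, norm_smul]
          have h4 : ‖t n‖ ≤ 1 / (n + 1 : ℝ) := by
            rw [ht, Real.norm_eq_abs, abs_neg]
            exact (hw4 n).le
          have h5 := (hw1 n).le
          gcongr
  -- bounded energy along a subsequence
  obtain ⟨C, hC⟩ := hSB v c hvS hv1 hvJ hvd
  obtain ⟨φ1, hφ1, hC1⟩ := extraction_of_frequently_atTop hC
  obtain ⟨B1, hB1⟩ : ∃ B1 : ℝ, ∀ n, |JJ ι h lam (v n)| ≤ B1 := by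
    obtain ⟨B1, hB1⟩ := hvJ.bddAbove_range
    obtain ⟨B2, hB2⟩ := hvJ.bddBelow_range
    refine ⟨max B1 (-B2), fun n => abs_le.mpr ⟨?_, ?_⟩⟩
    · have := hB2 ⟨n, rfl⟩
      have h2 := le_max_right B1 (-B2)
      simp only at this
      linarith
    · exact (hB1 ⟨n, rfl⟩).trans (le_max_left _ _)
  have hmean : ∀ n, |∫ x, ι (v (φ1 n)) x ∂vol| ≤ max C ((B1 + C / 2) / lam) := by
    intro n
    refine le_trans ?_ (le_max_right _ _)
    rw [le_div_iff₀ hlam]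
    have h1 : JJ ι h lam (v (φ1 n)) = (1 / 2) * (‖v (φ1 n)‖ ^ 2 - ‖ι (v (φ1 n))‖ ^ 2)
        + lam * (∫ x, ι (v (φ1 n)) x ∂vol) := by
      unfold JJ
      rw [hv1, Real.log_one]
      ring
    have h2 : 0 ≤ ‖v (φ1 n)‖ ^ 2 - ‖ι (v (φ1 n))‖ ^ 2 := by
      have := pow_le_pow_left₀ (norm_nonneg _) (hn (v (φ1 n))) 2
      linarith
    have h3 := hC1 n
    have h4 := hB1 (φ1 n)
    rw [abs_le] at h4
    have h5 : |∫ x, ι (v (φ1 n)) x ∂vol| * lam = |lam * ∫ x, ι (v (φ1 n)) x ∂vol| := by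
      rw [abs_mul, abs_of_pos hlam, mul_comm]
    rw [h5, abs_le]
    constructor <;> linarith [h4.1, h4.2]
  obtain ⟨B, hB⟩ := hPoin (max C ((B1 + C / 2) / lam))
  have hvB : ∀ n, ‖v (φ1 n)‖ ≤ B := fun n =>
    hB _ (hvS _) ((hC1 n).trans (le_max_left _ _)) (hmean n)
  obtain ⟨φ2, hφ2, hcau⟩ := hRel (fun n => v (φ1 n)) B (fun n => hvS _) hvB
  set z : ℕ → H := fun n => v (φ1 (φ2 n)) with hz
  have hφ : StrictMono (fun n => φ1 (φ2 n)) := hφ1.comp hφ2
  -- bound for GG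
  obtain ⟨CG, hCG, hG⟩ := GG_lip hE hm hK B
  have hB0 : 0 ≤ B := (norm_nonneg _).trans (hvB 0)
  set BG : ℝ := CG * (2 * B) with hBG
  have hzcau : CauchySeq z := by
    rw [cauchySeq_iff_tendsto_dist_atTop_0]
    have hcau' := cauchySeq_iff_tendsto_dist_atTop_0.mp hcau
    have hdz : Tendsto (fun n => ‖dJ hE hm hK lam (z n)‖) atTop (𝓝 0) :=
      hvd.comp hφ.tendsto_atTop
    have hd1 : Tendsto (fun p : ℕ × ℕ => ‖dJ hE hm hK lam (z p.1)‖) atTop (𝓝 0) := by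
      rw [← prod_atTop_atTop_eq]
      exact hdz.comp tendsto_fst
    have hd2 : Tendsto (fun p : ℕ × ℕ => ‖dJ hE hm hK lam (z p.2)‖) atTop (𝓝 0) := by
      rw [← prod_atTop_atTop_eq]
      exact hdz.comp tendsto_snd
    have hg : Tendsto (fun p : ℕ × ℕ => √(dist (ι (z p.1)) (ι (z p.2)) ^ 2
        + (‖dJ hE hm hK lam (z p.1)‖ + ‖dJ hE hm hK lam (z p.2)‖) * (2 * B)
        + lam * (BG * dist (ι (z p.1)) (ι (z p.2))))) atTop (𝓝 0) := by
      have h1 := (((hcau'.pow 2).add ((hd1.add hd2).mul_const (2 * B))).add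
        ((hcau'.const_mul BG).const_mul lam)).sqrt
      simpa using h1
    refine squeeze_zero (fun p => dist_nonneg) (fun p => ?_) hg
    apply Real.le_sqrt_of_sq_le
    rw [dist_eq_norm, dist_eq_norm,
      diff_identity hE hm hK lam (z p.1) (z p.2) (hv1 _) (hv1 _)]
    have hzB : ∀ n, ‖z n‖ ≤ B := fun n => hvB _
    have h2 : ‖z p.1 - z p.2‖ ≤ 2 * B := by
      have := norm_sub_le (z p.1) (z p.2)
      have h3 := hzB p.1
      have h4 := hzB p.2
      linarith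
    have h3 : (dJ hE hm hK lam (z p.1) - dJ hE hm hK lam (z p.2)) (z p.1 - z p.2) ≤
        (‖dJ hE hm hK lam (z p.1)‖ + ‖dJ hE hm hK lam (z p.2)‖) * (2 * B) := by
      refine (le_abs_self _).trans ?_
      rw [← Real.norm_eq_abs]
      refine (ContinuousLinearMap.le_opNorm _ _).trans ?_
      exact mul_le_mul (norm_sub_le _ _) h2 (norm_nonneg _) (by positivity)
    have h4 : inner ℝ (GG hE hm hK (z p.1) - GG hE hm hK (z p.2)) (ι (z p.1) - ι (z p.2)) ≤
        BG * ‖ι (z p.1) - ι (z p.2)‖ := by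
      refine (real_inner_le_norm _ _).trans ?_
      have h5 := hG (z p.1) (z p.2) (hzB _) (hzB _)
      have h6 : CG * ‖z p.1 - z p.2‖ ≤ BG := by
        rw [hBG]
        gcongr
      exact mul_le_mul_of_nonneg_right (h5.trans h6) (norm_nonneg _)
    have h5 := mul_le_mul_of_nonneg_left h4 hlam.le
    linarith
  obtain ⟨z0, hz0⟩ := cauchySeq_tendsto_of_complete hzcau
  refine ⟨fun n => φ1 (φ2 n), hφ, z0, ?_⟩
  have h1 := (hdiff.comp hφ.tendsto_atTop).add hz0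
  simpa [hz, Function.comp_def] using h1

end PSseq

end Pool.Agent.Helper9.PS
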