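import Pool.Agent.Helper9.PS.H1
import Pool.Agent.Helper9.PS.Abs3

/-!
# The Palais-Smale property from the energy bound for smooth Palais-Smale sequences
-/

open MeasureTheory Set Manifold Bundle Filter Topology
open scoped ContDiff ENNReal

set_option linter.unusedSectionVars false

namespace Pool.Agent.Helper9.PS
open Pool.Agent.Helper41.PS Pool.Agent.Helper93.PS

variable {M : Type*} [TopologicalSpace M] [T2Space M] [CompactSpace M] [ChartedSpace E2 M]
  [IsManifold (𝓡 2) ∞ M] [RiemannianBundle (fun x : M => TangentSpace (𝓡 2) x)]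
  [IsContMDiffRiemannianBundle (𝓡 2) ∞ E2 (fun x : M => TangentSpace (𝓡 2) x)]
  [MeasurableSpace M] [BorelSpace M] (vol : Measure M) [IsProbabilityMeasure vol]

/-- The functional `J(u) = 1/2 ∫ |∇u|² + lam ∫ u - lam log ∫ h exp(u)` on `H1(M)`; the Dirichlet
integral is the square of the `H1` norm minus the square of the `L²` norm. -/
noncomputable def J (h : M → ℝ) (lam : ℝ) (u : H1 vol) : ℝ :=
  (1 / 2) * (‖u‖ ^ 2 - ‖toL2 vol u‖ ^ 2) + lam * (∫ x, toL2 vol u x ∂vol)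
    - lam * Real.log (∫ x, h x * Real.exp (toL2 vol u x) ∂vol)

/-- The Palais-Smale property. -/
def PSProperty (h : M → ℝ) (lam : ℝ) : Prop :=
  ∀ (u : ℕ → H1 vol) (c : ℝ), (∀ n, ∫ x, h x * Real.exp (toL2 vol (u n) x) ∂vol = 1) →
    Tendsto (fun n => J vol h lam (u n)) atTop (𝓝 c) →
    Tendsto (fun n => ‖fderiv ℝ (J vol h lam) (u n)‖) atTop (𝓝 0) →
    ∃ φ : ℕ → ℕ, StrictMono φ ∧ ∃ v : H1 vol, Tendsto (fun n => u (φ n)) atTop (𝓝 v)

/-- Global `L1` Poincare inequality (request R1). -/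
def GlobalPoincare : Prop := ∃ C : ℝ, 0 < C ∧ ∀ u : M → ℝ,
    ContMDiff (𝓡 2) 𝓘(ℝ, ℝ) ∞ u →
    ∫ x, |u x - ∫ y, u y ∂vol| ∂vol ≤ C * ∫ x, ‖grad u x‖ ∂vol

/-- Exponential bound (request R2). -/
def ExpBound : Prop := ∀ p E : ℝ, ∃ C : ℝ, 0 < C ∧ ∀ u : M → ℝ, ContMDiff (𝓡 2) 𝓘(ℝ, ℝ) ∞ u →
    (∫ x, u x ^ 2 ∂vol) + (∫ x, ‖grad u x‖ ^ 2 ∂vol) ≤ E →
    ∫ x, Real.exp (p * |u x|) ∂vol ≤ C

/-- Rellich compactness (request R2). -/
def RellichProp : Prop := ∀ (u : ℕ → M → ℝ), (∀ n, ContMDiff (𝓡 2) 𝓘(ℝ, ℝ) ∞ (u n)) → ∀ (E : ℝ),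
    (∀ n, (∫ x, u n x ^ 2 ∂vol) + (∫ x, ‖grad (u n) x‖ ^ 2 ∂vol) ≤ E) →
    ∃ φ : ℕ → ℕ, StrictMono φ ∧ ∀ ε > 0, ∃ N, ∀ m ≥ N, ∀ n ≥ N,
      ∫ x, (u (φ m) x - u (φ n) x) ^ 2 ∂vol ≤ ε

variable {vol}

theorem toL2_ae (u : PreH1 vol) : toL2 vol (u : H1 vol) =ᵐ[vol] u.toFun := by
  rw [toL2_coe, preL2_apply]
  exact MemLp.coeFn_toLp _

theorem norm_toL2_le (v : H1 vol) : ‖toL2 vol v‖ ≤ ‖v‖ := by
  induction v using UniformSpace.Completion.induction_on with
  | hp => exact isClosed_le (by fun_prop) (by fun_prop)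
  | ih u =>
    rw [toL2_coe, UniformSpace.Completion.norm_coe]
    refine le_of_sq_le_sq ?_ (norm_nonneg _)
    rw [preL2_apply, norm_toLp_sq, PreH1.norm_sq]
    have : 0 ≤ ∫ x, ‖grad u.toFun x‖ ^ 2 ∂vol := integral_nonneg fun x => sq_nonneg _
    linarith

theorem dir_coe (u : PreH1 vol) : ‖(u : H1 vol)‖ ^ 2 - ‖toL2 vol (u : H1 vol)‖ ^ 2 =
    ∫ x, ‖grad u.toFun x‖ ^ 2 ∂vol := by
  rw [toL2_coe, UniformSpace.Completion.norm_coe, preL2_apply, norm_toLp_sq, PreH1.norm_sq]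
  ring

theorem inner_coe_sub (u v : PreH1 vol) :
    inner ℝ (u : H1 vol) (v : H1 vol) - inner ℝ (toL2 vol (u : H1 vol)) (toL2 vol (v : H1 vol)) =
    ∫ x, inner ℝ (grad u.toFun x) (grad v.toFun x) ∂vol := by
  rw [toL2_coe, toL2_coe, UniformSpace.Completion.inner_coe, preL2_apply, preL2_apply,
    inner_toLp2, PreH1.inner_def, h1Inner]
  ring

variable (vol) in
/-- The constant function one. -/
noncomputable def one1 : PreH1 vol := PreH1.mk (fun _ => 1) contMDiff_const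

theorem toL2_one : toL2 vol (one1 vol : H1 vol) = one2 vol := by
  rw [toL2_coe, preL2_apply]
  rfl

theorem inner_one (v : H1 vol) : inner ℝ v (one1 vol : H1 vol) =
    inner ℝ (toL2 vol v) (toL2 vol (one1 vol : H1 vol)) := by
  induction v using UniformSpace.Completion.induction_on with
  | hp => exact isClosed_eq (by fun_prop) (by fun_prop)
  | ih u =>
    rw [← sub_eq_zero, inner_coe_sub]
    have : ∀ x, inner ℝ (grad u.toFun x) (grad (one1 vol).toFun x) = 0 := by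
      intro x
      have : grad (one1 vol).toFun x = 0 := grad_const 1 x
      rw [this, inner_zero_right]
    simp [this]

section Exp

variable (hX : ExpBound vol)
include hX

theorem expBd : ExpBd (toL2 vol) := by
  intro p E
  obtain ⟨C, hC, hb⟩ := hX p (E + 1)
  refine ⟨C, hC, fun u hu => ?_⟩
  -- smooth approximation
  obtain ⟨w, hw⟩ : ∃ w : ℕ → PreH1 vol, Tendsto (fun n => (w n : H1 vol)) atTop (𝓝 u) := by
    have hd : DenseRange ((↑) : PreH1 vol → H1 vol) := UniformSpace.Completion.denseRange_coe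
    have hu' : u ∈ closure (Set.range ((↑) : PreH1 vol → H1 vol)) := hd u
    obtain ⟨x, hx, hxu⟩ := mem_closure_iff_seq_limit.mp hu'
    choose w hw using hx
    exact ⟨w, by simpa [hw] using hxu⟩
  have hn : ∀ᶠ n in atTop, ‖w n‖ ^ 2 ≤ E + 1 := by
    have h1 : Tendsto (fun n => ‖(w n : H1 vol)‖ ^ 2) atTop (𝓝 (‖u‖ ^ 2)) := (hw.norm).pow 2
    have h2 : ∀ᶠ n in atTop, ‖(w n : H1 vol)‖ ^ 2 < E + 1 :=
      h1.eventually_lt_const (by linarith)
    filter_upwards [h2] with n hn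
    rw [UniformSpace.Completion.norm_coe] at hn
    exact hn.le
  have hL : Tendsto (fun n => toL2 vol (w n : H1 vol)) atTop (𝓝 (toL2 vol u)) :=
    ((toL2 vol).continuous.tendsto u).comp hw
  obtain ⟨ns, hns, hae⟩ := (tendstoInMeasure_of_tendsto_Lp hL).exists_seq_tendsto_ae
  have hm : Measurable (fun x => Real.exp (p * |toL2 vol u x|)) :=
    ((meas_Lp (toL2 vol u)).abs.const_mul p).exp
  have hmn : ∀ n, Measurable (fun x => ENNReal.ofReal
      (Real.exp (p * |toL2 vol (w (ns n) : H1 vol) x|))) := fun n =>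
    ((meas_Lp (toL2 vol (w (ns n) : H1 vol))).abs.const_mul p).exp.ennreal_ofReal
  have hbn : ∀ᶠ n in atTop, ∫⁻ x, ENNReal.ofReal
      (Real.exp (p * |toL2 vol (w (ns n) : H1 vol) x|)) ∂vol ≤ ENNReal.ofReal C := by
    filter_upwards [hns.tendsto_atTop.eventually hn] with n hn'
    rw [PreH1.norm_sq] at hn'
    have h1 := hb (w (ns n)).toFun (w (ns n)).smooth hn'
    have h2 : Integrable (fun x => Real.exp (p * |(w (ns n)).toFun x|)) vol :=
      integrable_cont (by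
        have := (w (ns n)).continuous
        fun_prop)
    have h3 : ∫⁻ x, ENNReal.ofReal (Real.exp (p * |toL2 vol (w (ns n) : H1 vol) x|)) ∂vol =
        ∫⁻ x, ENNReal.ofReal (Real.exp (p * |(w (ns n)).toFun x|)) ∂vol := by
      refine lintegral_congr_ae ?_
      filter_upwards [toL2_ae (w (ns n))] with x hx
      rw [hx]
    rw [h3, ← ofReal_integral_eq_lintegral_ofReal h2 (Eventually.of_forall fun x =>
      (Real.exp_pos _).le)]
    exact ENNReal.ofReal_le_ofReal h1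
  have hfat : ∫⁻ x, ENNReal.ofReal (Real.exp (p * |toL2 vol u x|)) ∂vol ≤ ENNReal.ofReal C := by
    have h1 : ∫⁻ x, ENNReal.ofReal (Real.exp (p * |toL2 vol u x|)) ∂vol =
        ∫⁻ x, liminf (fun n => ENNReal.ofReal
          (Real.exp (p * |toL2 vol (w (ns n) : H1 vol) x|))) atTop ∂vol := by
      refine lintegral_congr_ae ?_
      filter_upwards [hae] with x hx
      have h2 : Tendsto (fun n => ENNReal.ofReal
          (Real.exp (p * |toL2 vol (w (ns n) : H1 vol) x|))) atTop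
          (𝓝 (ENNReal.ofReal (Real.exp (p * |toL2 vol u x|)))) :=
        ENNReal.tendsto_ofReal ((Real.continuous_exp.tendsto _).comp
          ((hx.abs).const_mul p))
      exact h2.liminf_eq.symm
    rw [h1]
    refine (lintegral_liminf_le hmn).trans ?_
    exact liminf_le_of_frequently_le' hbn.frequently
  have hint : Integrable (fun x => Real.exp (p * |toL2 vol u x|)) vol := by
    refine ⟨hm.aestronglyMeasurable, ?_⟩
    rw [hasFiniteIntegral_iff_ofReal (Eventually.of_forall fun x => (Real.exp_pos _).le)]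
    exact hfat.trans_lt ENNReal.ofReal_lt_top
  refine ⟨hint, ?_⟩
  rw [← ENNReal.ofReal_le_ofReal_iff hC.le,
    ofReal_integral_eq_lintegral_ofReal hint (Eventually.of_forall fun x => (Real.exp_pos _).le)]
  exact hfat

/-- The functional `J` is of class `C¹` on `H1(M)`. -/
theorem contDiff_J {h : M → ℝ} (hc : Continuous h) (hpos : ∀ x, 0 < h x) (lam : ℝ) :
    ContDiff ℝ 1 (J vol h lam) := by
  obtain ⟨K, hK⟩ : ∃ K, ∀ x, |h x| ≤ K := by
    obtain ⟨K, hK⟩ := (isCompact_range hc).isBounded.exists_norm_le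
    exact ⟨K, fun x => hK _ ⟨x, rfl⟩⟩
  exact contDiff_JJ (expBd hX) hc.measurable hK lam hpos

end Exp

section Poin

theorem poin_aux {s a C3 Y D A : ℝ} (hs : 0 ≤ s) (ha : 0 ≤ a) (hC : 0 ≤ C3) (hD : D ≤ Y)
    (hA : 0 ≤ A) (hA2 : A ^ 2 = s + D) (h : s ≤ √a * √(C3 * A ^ 3)) :
    s ≤ max (max Y 1) (8 * a ^ 2 * C3 ^ 2) := by
  by_contra hcon
  push Not at hcon
  have h1 : Y < s := (le_max_left Y 1).trans_lt ((le_max_left _ _).trans_lt hcon)
  have h2 : 1 < s := (le_max_right Y 1).trans_lt ((le_max_left _ _).trans_lt hcon)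
  have h3 : 8 * a ^ 2 * C3 ^ 2 < s := (le_max_right _ _).trans_lt hcon
  have h4 : A ^ 2 ≤ 2 * s := by linarith
  have h5 : s ^ 2 ≤ a * (C3 * A ^ 3) := by
    calc s ^ 2 ≤ (√a * √(C3 * A ^ 3)) ^ 2 := pow_le_pow_left₀ hs h 2
      _ = a * (C3 * A ^ 3) := by
        rw [mul_pow, Real.sq_sqrt ha, Real.sq_sqrt (by positivity)]
  have h6 : (s ^ 2) ^ 2 ≤ (a * (C3 * A ^ 3)) ^ 2 := pow_le_pow_left₀ (sq_nonneg s) h5 2
  have h7 : (A ^ 2) ^ 3 ≤ (2 * s) ^ 3 := pow_le_pow_left₀ (sq_nonneg A) h4 3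
  have h8 : (a * (C3 * A ^ 3)) ^ 2 = a ^ 2 * C3 ^ 2 * (A ^ 2) ^ 3 := by ring
  have h9 : (s ^ 2) ^ 2 ≤ a ^ 2 * C3 ^ 2 * (2 * s) ^ 3 := by
    rw [h8] at h6
    exact h6.trans (mul_le_mul_of_nonneg_left h7 (by positivity))
  have h10 : s ^ 3 * s ≤ s ^ 3 * (8 * a ^ 2 * C3 ^ 2) := by nlinarith [h9]
  have h11 : s ≤ 8 * a ^ 2 * C3 ^ 2 := le_of_mul_le_mul_left h10 (by positivity)
  linarith

variable (hG : GlobalPoincare vol) (hX : ExpBound vol)
include hG hX

theorem poin (Y : ℝ) : ∃ B : ℝ, ∀ v ∈ Set.range ((↑) : PreH1 vol → H1 vol),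
    ‖v‖ ^ 2 - ‖toL2 vol v‖ ^ 2 ≤ Y → |∫ x, toL2 vol v x ∂vol| ≤ Y → ‖v‖ ≤ B := by
  obtain ⟨C1, hC1, hP⟩ := hG
  obtain ⟨C3, hC3, h3⟩ := (expBd hX).pow_le 3 (by norm_num)
  set a : ℝ := C1 * ((1 + max Y 0) / 2) with ha
  have ha0 : 0 ≤ a := by positivity
  set B2 : ℝ := max (max Y 1) (8 * a ^ 2 * C3 ^ 2) with hB2
  refine ⟨√(B2 + Y) + Y * ‖(one1 vol : H1 vol)‖, ?_⟩
  rintro _ ⟨u, rfl⟩ hD hmean
  rw [dir_coe] at hD
  have hmean' : ∫ x, toL2 vol (u : H1 vol) x ∂vol = ∫ x, u.toFun x ∂vol :=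
    integral_congr_ae (toL2_ae u)
  rw [hmean'] at hmean
  set m : ℝ := ∫ x, u.toFun x ∂vol with hm
  set w : PreH1 vol := u - m • one1 vol with hw
  have hwf : w.toFun = fun x => u.toFun x - m := by
    rw [hw, PreH1.sub_toFun]
    ext x
    rw [PreH1.smul_toFun]
    simp [one1, PreH1.mk_toFun]
  have hwg : ∀ x, grad w.toFun x = grad u.toFun x := by
    intro x
    rw [hwf]
    simp only [sub_eq_add_neg]
    exact grad_add_const u.toFun (-m) x
  have hgi : Integrable (fun x => ‖grad u.toFun x‖) vol :=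
    integrable_cont (continuous_norm_grad u.smooth)
  have hgi2 : Integrable (fun x => ‖grad u.toFun x‖ ^ 2) vol :=
    integrable_cont ((continuous_norm_grad u.smooth).pow 2)
  have hg1 : ∫ x, ‖grad u.toFun x‖ ∂vol ≤ (1 + max Y 0) / 2 := by
    have h1 : ∫ x, ‖grad u.toFun x‖ ∂vol ≤ ∫ x, (1 + ‖grad u.toFun x‖ ^ 2) / 2 ∂vol := by
      refine integral_mono hgi (((integrable_const 1).add hgi2).div_const 2) fun x => ?_
      simp only
      nlinarith [sq_nonneg (‖grad u.toFun x‖ - 1)]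
    rw [integral_div, integral_add (integrable_const 1) hgi2] at h1
    simp only [integral_const, probReal_univ, smul_eq_mul, mul_one] at h1
    have := le_max_left Y 0
    linarith
  have hwa : ∫ x, |w.toFun x| ∂vol ≤ a := by
    have h1 := hP u.toFun u.smooth
    rw [hwf]
    refine h1.trans ?_
    rw [ha]
    gcongr
  set s : ℝ := ∫ x, w.toFun x ^ 2 ∂vol with hs
  have hs0 : 0 ≤ s := integral_nonneg fun x => sq_nonneg _
  have hwn : ‖w‖ ^ 2 = s + ∫ x, ‖grad u.toFun x‖ ^ 2 ∂vol := by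
    rw [PreH1.norm_sq]
    simp only [hwg]
    rw [hs]
  have h3w : ∫ x, |w.toFun x| ^ 3 ∂vol ≤ C3 * ‖w‖ ^ 3 := by
    have h1 := (h3 (w : H1 vol)).2
    rw [UniformSpace.Completion.norm_coe] at h1
    refine le_trans (le_of_eq ?_) h1
    refine integral_congr_ae ?_
    filter_upwards [toL2_ae w] with x hx
    rw [hx]
  have hcs : s ≤ √a * √(C3 * ‖w‖ ^ 3) := by
    have hf : MemLp (fun x => √|w.toFun x|) 2 vol := memLp_cont (by
      have := w.continuous
      fun_prop) 2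
    have hg : MemLp (fun x => |w.toFun x| * √|w.toFun x|) 2 vol := memLp_cont (by
      have := w.continuous
      fun_prop) 2
    have h1 := cs hf hg
    have e1 : ∀ x, √|w.toFun x| * (|w.toFun x| * √|w.toFun x|) = w.toFun x ^ 2 := by
      intro x
      have : √|w.toFun x| * √|w.toFun x| = |w.toFun x| := Real.mul_self_sqrt (abs_nonneg _)
      calc √|w.toFun x| * (|w.toFun x| * √|w.toFun x|)
          = |w.toFun x| * (√|w.toFun x| * √|w.toFun x|) := by ring
        _ = w.toFun x ^ 2 := by rw [this, ← sq_abs]; ring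
    have e2 : ∀ x, √|w.toFun x| ^ 2 = |w.toFun x| := fun x => Real.sq_sqrt (abs_nonneg _)
    have e3 : ∀ x, (|w.toFun x| * √|w.toFun x|) ^ 2 = |w.toFun x| ^ 3 := by
      intro x
      rw [mul_pow, e2]; ring
    simp only [e1, e2, e3] at h1
    refine (le_abs_self _).trans (h1.trans ?_)
    gcongr
  have hsB : s ≤ B2 := poin_aux hs0 ha0 hC3.le hD (norm_nonneg w) hwn hcs
  have hwB : ‖w‖ ≤ √(B2 + Y) := by
    apply Real.le_sqrt_of_sq_le
    rw [hwn]
    linarith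
  have hu : u = w + m • one1 vol := by rw [hw, sub_add_cancel]
  rw [UniformSpace.Completion.norm_coe, UniformSpace.Completion.norm_coe]
  calc ‖u‖ = ‖w + m • one1 vol‖ := by rw [← hu]
    _ ≤ ‖w‖ + ‖m • one1 vol‖ := norm_add_le _ _
    _ = ‖w‖ + |m| * ‖one1 vol‖ := by rw [norm_smul, Real.norm_eq_abs]
    _ ≤ √(B2 + Y) + Y * ‖one1 vol‖ := by gcongr

end Poin

section Rel

variable (hR : RellichProp vol)
include hR

theorem rel (v : ℕ → H1 vol) (B : ℝ) (hv : ∀ n, v n ∈ Set.range ((↑) : PreH1 vol → H1 vol))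
    (hB : ∀ n, ‖v n‖ ≤ B) :
    ∃ φ : ℕ → ℕ, StrictMono φ ∧ CauchySeq (fun n => toL2 vol (v (φ n))) := by
  choose u hu using hv
  have hE : ∀ n, (∫ x, (u n).toFun x ^ 2 ∂vol) + (∫ x, ‖grad (u n).toFun x‖ ^ 2 ∂vol) ≤ B ^ 2 := by
    intro n
    rw [← PreH1.norm_sq, ← UniformSpace.Completion.norm_coe, hu n]
    exact pow_le_pow_left₀ (norm_nonneg _) (hB n) 2
  obtain ⟨φ, hφ, hc⟩ := hR (fun n => (u n).toFun) (fun n => (u n).smooth) (B ^ 2) hE
  refine ⟨φ, hφ, ?_⟩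
  rw [Metric.cauchySeq_iff]
  intro ε hε
  obtain ⟨N, hN⟩ := hc (ε ^ 2 / 2) (by positivity)
  refine ⟨N, fun m hm n hn => ?_⟩
  have h1 := hN m hm n hn
  have h2 : ‖toL2 vol (v (φ m)) - toL2 vol (v (φ n))‖ ^ 2 ≤ ε ^ 2 / 2 := by
    refine le_trans (le_of_eq ?_) h1
    rw [← hu, ← hu, toL2_coe, toL2_coe, ← map_sub, preL2_apply, norm_toLp_sq,
      PreH1.sub_toFun]
  rw [dist_eq_norm]
  refine lt_of_pow_lt_pow_left₀ 2 hε.le ?_
  have : 0 < ε ^ 2 := by positivity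
  linarith

end Rel

section Main

theorem ps_of_smoothBound (hG : GlobalPoincare vol) (hX : ExpBound vol) (hR : RellichProp vol) {h : M → ℝ} (hc : Continuous h)
    (hpos : ∀ x, 0 < h x) {lam : ℝ} (hlam : 0 < lam) (hSB : SmoothBound vol h lam) :
    PSProperty vol h lam := by
  obtain ⟨K, hK⟩ : ∃ K, ∀ x, |h x| ≤ K := by
    obtain ⟨K, hK⟩ := (isCompact_range hc).isBounded.exists_norm_le
    exact ⟨K, fun x => hK _ ⟨x, rfl⟩⟩
  intro u c hu1 hJ hd
  refine ps_abstract (expBd hX) hc.measurable hK lam hlam hpos toL2_one inner_one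
    norm_toL2_le (Set.range ((↑) : PreH1 vol → H1 vol)) UniformSpace.Completion.denseRange_coe
    ?_ ?_ (poin hG hX) (rel hR) u c hu1 hJ hd
  · rintro _ ⟨v, rfl⟩ t
    refine ⟨v + t • one1 vol, ?_⟩
    rw [UniformSpace.Completion.coe_add, UniformSpace.Completion.coe_smul]
  · intro v c hvS hv1 hvJ hvd
    choose w hw using hvS
    have hF : ∀ n, ∫ x, h x * Real.exp ((w n).toFun x) ∂vol = 1 := by
      intro n
      rw [← hv1 n, ← hw n]
      refine integral_congr_ae ?_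
      filter_upwards [toL2_ae (w n)] with x hx
      rw [hx]
    have hA : ∀ n, ∀ φ : M → ℝ, ContMDiff (𝓡 2) 𝓘(ℝ, ℝ) ∞ φ →
        |(∫ x, inner ℝ (grad (w n).toFun x) (grad φ x) ∂vol) + lam * (∫ x, φ x ∂vol)
         - lam * ∫ x, h x * Real.exp ((w n).toFun x) * φ x ∂vol|
        ≤ ‖dJ (expBd hX) hc.measurable hK lam (v n)‖
          * √((∫ x, φ x ^ 2 ∂vol) + ∫ x, ‖grad φ x‖ ^ 2 ∂vol) := by
      intro n φ hφ
      set f : PreH1 vol := PreH1.mk φ hφ with hf
      have hff : f.toFun = φ := rfl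
      have h1 : dJ (expBd hX) hc.measurable hK lam (v n) (f : H1 vol) =
          (∫ x, inner ℝ (grad (w n).toFun x) (grad φ x) ∂vol) + lam * (∫ x, φ x ∂vol)
            - lam * ∫ x, h x * Real.exp ((w n).toFun x) * φ x ∂vol := by
        rw [dJ_apply, hv1 n, ← hw n, inner_coe_sub, hff]
        have h2 : ∫ x, toL2 vol (f : H1 vol) x ∂vol = ∫ x, φ x ∂vol :=
          integral_congr_ae (toL2_ae f)
        have h3 : ∫ x, h x * Real.exp (toL2 vol (w n : H1 vol) x) * toL2 vol (f : H1 vol) x ∂vol =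
            ∫ x, h x * Real.exp ((w n).toFun x) * φ x ∂vol := by
          refine integral_congr_ae ?_
          filter_upwards [toL2_ae (w n), toL2_ae f] with x hx hy
          rw [hx, hy, hff]
        rw [h2, h3]
        ring
      rw [← h1, ← Real.norm_eq_abs]
      refine (ContinuousLinearMap.le_opNorm _ _).trans ?_
      rw [UniformSpace.Completion.norm_coe, PreH1.norm_eq, hff]
    have hB : Tendsto (fun n => (1 / 2) * (∫ x, ‖grad (w n).toFun x‖ ^ 2 ∂vol)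
        + lam * ∫ x, (w n).toFun x ∂vol) atTop (𝓝 c) := by
      refine hvJ.congr fun n => ?_
      unfold JJ
      rw [hv1 n, Real.log_one, ← hw n, dir_coe, integral_congr_ae (toL2_ae (w n))]
      ring
    obtain ⟨C, hC⟩ := hSB (fun n => (w n).toFun)
      (fun n => ‖dJ (expBd hX) hc.measurable hK lam (v n)‖) c (fun n => (w n).smooth) hF hvd
      hA hB
    refine ⟨C, hC.mono fun n hn => ?_⟩
    rw [← hw n, dir_coe]
    exact hn

end Main

end Pool.Agent.Helper9.PS
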