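import Mathlib

/-!
# Functionals of exponential type on a Hilbert space over `L²`
-/

open MeasureTheory Filter Topology
open scoped ENNReal

set_option linter.unusedSectionVars false

namespace Pool.Agent.Helper9.PS

section CS

variable {α : Type*} [MeasurableSpace α] {μ : Measure α}

theorem inner_toLp2 {f g : α → ℝ} (hf : MemLp f 2 μ) (hg : MemLp g 2 μ) :
    inner ℝ (hf.toLp f) (hg.toLp g) = ∫ x, f x * g x ∂μ := by
  rw [L2.inner_def]
  refine integral_congr_ae ?_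
  filter_upwards [hf.coeFn_toLp, hg.coeFn_toLp] with x hx hy
  rw [hx, hy]
  simp [mul_comm]

theorem norm_toLp2_sq {f : α → ℝ} (hf : MemLp f 2 μ) :
    ‖hf.toLp f‖ ^ 2 = ∫ x, f x ^ 2 ∂μ := by
  rw [← real_inner_self_eq_norm_sq, inner_toLp2 hf hf]
  exact integral_congr_ae (Eventually.of_forall fun x => (pow_two _).symm)

theorem norm_toLp2 {f : α → ℝ} (hf : MemLp f 2 μ) :
    ‖hf.toLp f‖ = √(∫ x, f x ^ 2 ∂μ) := by
  rw [← norm_toLp2_sq hf, Real.sqrt_sq (norm_nonneg _)]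

theorem norm_Lp2_sq (f : Lp ℝ 2 μ) : ‖f‖ ^ 2 = ∫ x, (f x) ^ 2 ∂μ := by
  rw [← real_inner_self_eq_norm_sq, L2.inner_def]
  refine integral_congr_ae (Eventually.of_forall fun x => ?_)
  simp [pow_two]

/-- Cauchy-Schwarz -/
theorem cs {f g : α → ℝ} (hf : MemLp f 2 μ) (hg : MemLp g 2 μ) :
    |∫ x, f x * g x ∂μ| ≤ √(∫ x, f x ^ 2 ∂μ) * √(∫ x, g x ^ 2 ∂μ) := by
  rw [← inner_toLp2 hf hg, ← norm_toLp2 hf, ← norm_toLp2 hg]
  exact abs_real_inner_le_norm _ _

theorem memLp2_of_sq_le {f g : α → ℝ} (hf : AEStronglyMeasurable f μ) (hg : Integrable g μ)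
    (h : ∀ x, f x ^ 2 ≤ g x) : MemLp f 2 μ := by
  rw [memLp_two_iff_integrable_sq hf]
  refine hg.mono' (hf.pow 2) (Eventually.of_forall fun x => ?_)
  rw [Real.norm_eq_abs, abs_of_nonneg (sq_nonneg _)]
  exact h x

end CS

section Ineq

theorem abs_exp_sub_le (t : ℝ) : |Real.exp t - 1 - t| ≤ t ^ 2 * Real.exp |t| := by
  have h := Complex.norm_exp_sub_sum_le_norm_mul_exp (t : ℂ) 2
  have h1 : Complex.exp (t : ℂ) - ∑ m ∈ Finset.range 2, (t : ℂ) ^ m / m.factorial
      = ((Real.exp t - 1 - t : ℝ) : ℂ) := by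
    simp [Finset.sum_range_succ]
    ring
  rw [h1, Complex.norm_real, Complex.norm_real, Real.norm_eq_abs, Real.norm_eq_abs, sq_abs] at h
  exact h

theorem abs_exp_sub_exp_le (a b : ℝ) :
    |Real.exp a - Real.exp b| ≤ |a - b| * Real.exp (|a| + |b|) := by
  wlog hab : b ≤ a generalizing a b
  · rw [abs_sub_comm, abs_sub_comm a b, add_comm]
    exact this b a (le_of_not_ge hab)
  have h1 : 0 ≤ a - b := sub_nonneg.mpr hab
  rw [abs_of_nonneg (sub_nonneg.mpr (Real.exp_le_exp.mpr hab)), abs_of_nonneg h1]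
  have h2 : Real.exp a - Real.exp b = Real.exp a * (1 - Real.exp (-(a - b))) := by
    rw [mul_sub, mul_one, ← Real.exp_add]
    congr 2
    ring
  rw [h2]
  have h3 : 1 - Real.exp (-(a - b)) ≤ a - b := by
    have := Real.add_one_le_exp (-(a - b))
    linarith
  have h4 : 0 ≤ 1 - Real.exp (-(a - b)) := by
    have : Real.exp (-(a - b)) ≤ 1 := Real.exp_le_one_iff.mpr (by linarith)
    linarith
  have h5 : Real.exp a ≤ Real.exp (|a| + |b|) := by
    apply Real.exp_le_exp.mpr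
    have := le_abs_self a
    have := abs_nonneg b
    linarith
  calc Real.exp a * (1 - Real.exp (-(a - b))) ≤ Real.exp (|a| + |b|) * (a - b) :=
        mul_le_mul h5 h3 h4 (Real.exp_pos _).le
    _ = (a - b) * Real.exp (|a| + |b|) := mul_comm _ _

theorem exp_add_le (a b : ℝ) :
    Real.exp (a + b) ≤ (Real.exp (2 * a) + Real.exp (2 * b)) / 2 := by
  have h1 : Real.exp (2 * a) = Real.exp a ^ 2 := by rw [← Real.exp_nat_mul]; norm_num
  have h2 : Real.exp (2 * b) = Real.exp b ^ 2 := by rw [← Real.exp_nat_mul]; norm_num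
  rw [h1, h2, Real.exp_add]
  nlinarith [sq_nonneg (Real.exp a - Real.exp b)]

end Ineq

section Abs

variable {M : Type*} [MeasurableSpace M] {vol : Measure M} [IsProbabilityMeasure vol]
  {H : Type*} [NormedAddCommGroup H] [InnerProductSpace ℝ H]

/-- All exponential moments are bounded on bounded sets. -/
def ExpBd (ι : H →L[ℝ] Lp ℝ 2 vol) : Prop := ∀ p E : ℝ, ∃ C : ℝ, 0 < C ∧ ∀ u : H, ‖u‖ ^ 2 ≤ E →
  Integrable (fun x => Real.exp (p * |ι u x|)) vol ∧ ∫ x, Real.exp (p * |ι u x|) ∂vol ≤ C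

variable {ι : H →L[ℝ] Lp ℝ 2 vol} (hE : ExpBd ι)

theorem meas_Lp (f : Lp ℝ 2 vol) : Measurable (f : M → ℝ) :=
  (Lp.stronglyMeasurable f).measurable

include hE

theorem ExpBd.integrable (p : ℝ) (u : H) : Integrable (fun x => Real.exp (p * |ι u x|)) vol := by
  obtain ⟨C, _, h⟩ := hE p (‖u‖ ^ 2)
  exact (h u le_rfl).1

theorem ExpBd.pow_le (k : ℕ) (hk : k ≠ 0) : ∃ C : ℝ, 0 < C ∧ ∀ u : H,
    Integrable (fun x => |ι u x| ^ k) vol ∧ ∫ x, |ι u x| ^ k ∂vol ≤ C * ‖u‖ ^ k := by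
  obtain ⟨C, hC, h⟩ := hE 1 1
  refine ⟨k.factorial * C, by positivity, fun u => ?_⟩
  by_cases hu : u = 0
  · subst hu
    have h0 : (fun x => |ι (0 : H) x| ^ k) =ᵐ[vol] fun _ => (0 : ℝ) := by
      rw [map_zero]
      filter_upwards [Lp.coeFn_zero ℝ 2 vol] with x hx
      rw [hx]
      simp [hk]
    refine ⟨(integrable_zero M ℝ vol).congr h0.symm, ?_⟩
    rw [integral_congr_ae h0]
    simp [hk]
  · have hn : 0 < ‖u‖ := norm_pos_iff.mpr hu
    set v : H := ‖u‖⁻¹ • u with hv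
    have hv1 : ‖v‖ = 1 := by
      rw [hv, norm_smul, norm_inv, norm_norm, inv_mul_cancel₀ hn.ne']
    obtain ⟨hi, hb⟩ := h v (by rw [hv1]; norm_num)
    have hae : ∀ᵐ x ∂vol, |ι u x| ^ k = ‖u‖ ^ k * |ι v x| ^ k := by
      have h1 : ι v = ‖u‖⁻¹ • ι u := by rw [hv, map_smul]
      rw [h1]
      filter_upwards [Lp.coeFn_smul (‖u‖⁻¹) (ι u)] with x hx
      rw [hx, Pi.smul_apply, smul_eq_mul, abs_mul, mul_pow, abs_of_pos (inv_pos.mpr hn),
        ← mul_assoc, ← mul_pow, mul_inv_cancel₀ hn.ne', one_pow, one_mul]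
    have hle : ∀ x, |ι v x| ^ k ≤ k.factorial * Real.exp (1 * |ι v x|) := by
      intro x
      have := Real.pow_div_factorial_le_exp _ (abs_nonneg (ι v x)) k
      rw [div_le_iff₀ (by positivity)] at this
      rw [one_mul]
      linarith
    have hm : AEStronglyMeasurable (fun x => |ι v x| ^ k) vol :=
      ((meas_Lp (ι v)).abs.pow_const k).aestronglyMeasurable
    have hi2 : Integrable (fun x => |ι v x| ^ k) vol := by
      refine (hi.const_mul (k.factorial : ℝ)).mono' hm (Eventually.of_forall fun x => ?_)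
      rw [Real.norm_eq_abs, abs_of_nonneg (by positivity)]
      exact hle x
    refine ⟨(hi2.const_mul (‖u‖ ^ k)).congr (hae.mono fun x hx => hx.symm), ?_⟩
    rw [integral_congr_ae hae, integral_const_mul]
    have h2 : ∫ x, |ι v x| ^ k ∂vol ≤ k.factorial * C := by
      calc ∫ x, |ι v x| ^ k ∂vol ≤ ∫ x, k.factorial * Real.exp (1 * |ι v x|) ∂vol :=
            integral_mono hi2 (hi.const_mul _) hle
        _ = k.factorial * ∫ x, Real.exp (1 * |ι v x|) ∂vol := integral_const_mul _ _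
        _ ≤ k.factorial * C := by gcongr
    calc ‖u‖ ^ k * ∫ x, |ι v x| ^ k ∂vol ≤ ‖u‖ ^ k * (k.factorial * C) := by gcongr
      _ = k.factorial * C * ‖u‖ ^ k := by ring

/-- `exp (a |ιu| + b |ιv|)` is integrable with a bound. -/
theorem ExpBd.two (p R : ℝ) : ∃ C : ℝ, 0 < C ∧ ∀ u v : H, ‖u‖ ≤ R → ‖v‖ ≤ R →
    Integrable (fun x => Real.exp (p * (|ι u x| + |ι v x|))) vol ∧
    ∫ x, Real.exp (p * (|ι u x| + |ι v x|)) ∂vol ≤ C := by
  obtain ⟨C, hC, h⟩ := hE (2 * p) (R ^ 2)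
  refine ⟨C, hC, fun u v hu hv => ?_⟩
  have hR : ∀ w : H, ‖w‖ ≤ R → ‖w‖ ^ 2 ≤ R ^ 2 := fun w hw =>
    pow_le_pow_left₀ (norm_nonneg _) hw 2
  obtain ⟨hi1, hb1⟩ := h u (hR u hu)
  obtain ⟨hi2, hb2⟩ := h v (hR v hv)
  have hle : ∀ x, Real.exp (p * (|ι u x| + |ι v x|)) ≤
      (Real.exp (2 * p * |ι u x|) + Real.exp (2 * p * |ι v x|)) / 2 := by
    intro x
    have := exp_add_le (p * |ι u x|) (p * |ι v x|)
    rw [mul_add]
    simpa [mul_assoc] using this
  have hm : AEStronglyMeasurable (fun x => Real.exp (p * (|ι u x| + |ι v x|))) vol :=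
    (((meas_Lp (ι u)).abs.add (meas_Lp (ι v)).abs).const_mul p).exp.aestronglyMeasurable
  have hi : Integrable (fun x => (Real.exp (2 * p * |ι u x|) + Real.exp (2 * p * |ι v x|)) / 2)
      vol := (hi1.add hi2).div_const 2
  have hi3 : Integrable (fun x => Real.exp (p * (|ι u x| + |ι v x|))) vol := by
    refine hi.mono' hm (Eventually.of_forall fun x => ?_)
    rw [Real.norm_eq_abs, abs_of_pos (Real.exp_pos _)]
    exact hle x
  refine ⟨hi3, (integral_mono hi3 hi hle).trans ?_⟩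
  rw [integral_div, integral_add hi1 hi2]
  linarith

end Abs

section G

variable {M : Type*} [MeasurableSpace M] {vol : Measure M} [IsProbabilityMeasure vol]
  {H : Type*} [NormedAddCommGroup H] [InnerProductSpace ℝ H]
  {ι : H →L[ℝ] Lp ℝ 2 vol} (hE : ExpBd ι) {h : M → ℝ} (hm : Measurable h) {K : ℝ}
  (hK : ∀ x, |h x| ≤ K)

include hE hm hK

theorem memLp_G (u : H) : MemLp (fun x => h x * Real.exp (ι u x)) 2 vol := by
  refine memLp2_of_sq_le (g := fun x => K ^ 2 * Real.exp (2 * |ι u x|))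
    (hm.mul (meas_Lp (ι u)).exp).aestronglyMeasurable ((hE.integrable 2 u).const_mul _) ?_
  intro x
  rw [mul_pow]
  have h1 : h x ^ 2 ≤ K ^ 2 := by
    rw [← sq_abs]
    exact pow_le_pow_left₀ (abs_nonneg _) (hK x) 2
  have h2 : Real.exp (ι u x) ^ 2 ≤ Real.exp (2 * |ι u x|) := by
    rw [← Real.exp_nat_mul]
    apply Real.exp_le_exp.mpr
    have := le_abs_self (ι u x)
    push_cast
    linarith
  exact mul_le_mul h1 h2 (sq_nonneg _) (sq_nonneg _)

/-- `h exp(ιu)` as an element of `L²`. -/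
noncomputable def GG (u : H) : Lp ℝ 2 vol := (memLp_G hE hm hK u).toLp _

/-- Local Lipschitz bound for `GG`. -/
theorem GG_lip (R : ℝ) : ∃ C : ℝ, 0 < C ∧ ∀ u v : H, ‖u‖ ≤ R → ‖v‖ ≤ R →
    ‖GG hE hm hK u - GG hE hm hK v‖ ≤ C * ‖u - v‖ := by
  obtain ⟨C4, hC4, h4⟩ := hE.pow_le 4 (by norm_num)
  obtain ⟨C, hC, h2⟩ := hE.two 4 R
  refine ⟨√(K ^ 2 * (√C4 * √C) + 1), by positivity, fun u v hu hv => ?_⟩
  rw [GG, GG, ← MemLp.toLp_sub]
  have hsq : ‖((memLp_G hE hm hK u).sub (memLp_G hE hm hK v)).toLp _‖ ^ 2 ≤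
      (K ^ 2 * (√C4 * √C) + 1) * ‖u - v‖ ^ 2 := by
    rw [norm_toLp2_sq]
    obtain ⟨hi4, hb4⟩ := h4 (u - v)
    obtain ⟨hi2, hb2⟩ := h2 u v hu hv
    -- the two factors
    have hA : MemLp (fun x => (ι (u - v) x) ^ 2) 2 vol := by
      refine memLp2_of_sq_le (g := fun x => |ι (u - v) x| ^ 4)
        ((meas_Lp _).pow_const 2).aestronglyMeasurable hi4 fun x => ?_
      rw [← sq_abs (ι (u - v) x)]
      apply le_of_eq; ring
    have hB : MemLp (fun x => Real.exp (2 * (|ι u x| + |ι v x|))) 2 vol := by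
      refine memLp2_of_sq_le (g := fun x => Real.exp (4 * (|ι u x| + |ι v x|)))
        (((meas_Lp _).abs.add (meas_Lp _).abs).const_mul 2).exp.aestronglyMeasurable hi2
        fun x => ?_
      rw [← Real.exp_nat_mul]
      apply le_of_eq
      congr 1
      push_cast
      ring
    have hcs := cs hA hB
    have hA2 : ∫ x, ((ι (u - v) x) ^ 2) ^ 2 ∂vol ≤ C4 * ‖u - v‖ ^ 4 := by
      refine le_trans (le_of_eq ?_) hb4
      refine integral_congr_ae (Eventually.of_forall fun x => ?_)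
      simp only
      rw [← sq_abs (ι (u - v) x)]
      ring
    have hB2 : ∫ x, (Real.exp (2 * (|ι u x| + |ι v x|))) ^ 2 ∂vol ≤ C := by
      refine le_trans (le_of_eq ?_) hb2
      refine integral_congr_ae (Eventually.of_forall fun x => ?_)
      simp only
      rw [← Real.exp_nat_mul]
      congr 1
      push_cast
      ring
    have hint : Integrable (fun x => (ι (u - v) x) ^ 2 * Real.exp (2 * (|ι u x| + |ι v x|))) vol :=
      hA.integrable_mul hB
    have hpt : ∀ᵐ x ∂vol, ((fun x => h x * Real.exp (ι u x)) - fun x => h x * Real.exp (ι v x)) x ^ 2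
        ≤ K ^ 2 * ((ι (u - v) x) ^ 2 * Real.exp (2 * (|ι u x| + |ι v x|))) := by
      have h1 : ι (u - v) = ι u - ι v := map_sub _ _ _
      rw [h1]
      filter_upwards [Lp.coeFn_sub (ι u) (ι v)] with x hx
      rw [hx]
      simp only [Pi.sub_apply]
      rw [← mul_sub, mul_pow]
      have e1 : h x ^ 2 ≤ K ^ 2 := by
        rw [← sq_abs]
        exact pow_le_pow_left₀ (abs_nonneg _) (hK x) 2
      have e2 : (Real.exp (ι u x) - Real.exp (ι v x)) ^ 2 ≤
          (ι u x - ι v x) ^ 2 * Real.exp (2 * (|ι u x| + |ι v x|)) := by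
        rw [← sq_abs (Real.exp (ι u x) - Real.exp (ι v x)), ← sq_abs (ι u x - ι v x)]
        have e3 : Real.exp (2 * (|ι u x| + |ι v x|)) = Real.exp (|ι u x| + |ι v x|) ^ 2 := by
          rw [← Real.exp_nat_mul]; norm_num
        rw [e3, ← mul_pow]
        exact pow_le_pow_left₀ (abs_nonneg _) (abs_exp_sub_exp_le _ _) 2
      exact mul_le_mul e1 e2 (sq_nonneg _) (sq_nonneg _)
    have hint2 : Integrable (fun x => ((fun x => h x * Real.exp (ι u x)) -
        fun x => h x * Real.exp (ι v x)) x ^ 2) vol :=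
      ((memLp_G hE hm hK u).sub (memLp_G hE hm hK v)).integrable_sq
    calc ∫ x, ((fun x => h x * Real.exp (ι u x)) - fun x => h x * Real.exp (ι v x)) x ^ 2 ∂vol
        ≤ ∫ x, K ^ 2 * ((ι (u - v) x) ^ 2 * Real.exp (2 * (|ι u x| + |ι v x|))) ∂vol :=
          integral_mono_ae hint2 (hint.const_mul _) hpt
      _ = K ^ 2 * ∫ x, ((ι (u - v) x) ^ 2 * Real.exp (2 * (|ι u x| + |ι v x|))) ∂vol :=
          integral_const_mul _ _
      _ ≤ K ^ 2 * (√(C4 * ‖u - v‖ ^ 4) * √C) := by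
          gcongr
          refine (le_abs_self _).trans (hcs.trans ?_)
          gcongr
      _ = K ^ 2 * (√C4 * √C) * ‖u - v‖ ^ 2 := by
          rw [Real.sqrt_mul hC4.le, show ‖u - v‖ ^ 4 = (‖u - v‖ ^ 2) ^ 2 by ring,
            Real.sqrt_sq (sq_nonneg _)]
          ring
      _ ≤ (K ^ 2 * (√C4 * √C) + 1) * ‖u - v‖ ^ 2 := by
          gcongr
          linarith
  have h3 : (0 : ℝ) ≤ K ^ 2 * (√C4 * √C) + 1 := by positivity
  refine le_of_sq_le_sq ?_ (by positivity)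
  rw [mul_pow, Real.sq_sqrt h3]
  exact hsq

end G

end Pool.Agent.Helper9.PS
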