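import Pool.Agent.Helper9.PS.Abs1

/-!
# The functional `J` on a Hilbert space over `L²` is `C¹`
-/

open MeasureTheory Filter Topology
open scoped ENNReal

set_option linter.unusedSectionVars false

namespace Pool.Agent.Helper9.PS

section G

variable {M : Type*} [MeasurableSpace M] {vol : Measure M} [IsProbabilityMeasure vol]
  {H : Type*} [NormedAddCommGroup H] [InnerProductSpace ℝ H]
  {ι : H →L[ℝ] Lp ℝ 2 vol} (hE : ExpBd ι) {h : M → ℝ} (hm : Measurable h) {K : ℝ}
  (hK : ∀ x, |h x| ≤ K)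

include hE hm hK

theorem integrable_G (u : H) : Integrable (fun x => h x * Real.exp (ι u x)) vol :=
  (memLp_G hE hm hK u).integrable one_le_two

theorem inner_GG (u : H) (f : Lp ℝ 2 vol) :
    inner ℝ (GG hE hm hK u) f = ∫ x, h x * Real.exp (ι u x) * f x ∂vol := by
  rw [L2.inner_def]
  refine integral_congr_ae ?_
  filter_upwards [(memLp_G hE hm hK u).coeFn_toLp] with x hx
  rw [GG, hx]
  simp [mul_comm]

theorem integrable_GG_mul (u : H) (f : Lp ℝ 2 vol) :
    Integrable (fun x => h x * Real.exp (ι u x) * f x) vol :=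
  (memLp_G hE hm hK u).integrable_mul (Lp.memLp f)

/-- second order expansion of `∫ h exp(ιu)` -/
theorem FF_expand (u : H) : ∃ C : ℝ, 0 < C ∧ ∀ v : H, ‖v‖ ≤ 1 →
    |(∫ x, h x * Real.exp (ι (u + v) x) ∂vol) - (∫ x, h x * Real.exp (ι u x) ∂vol)
      - inner ℝ (GG hE hm hK u) (ι v)| ≤ C * ‖v‖ ^ 2 := by
  obtain ⟨C4, hC4, h4⟩ := hE.pow_le 4 (by norm_num)
  obtain ⟨C, hC, h2⟩ := hE.two 2 (max ‖u‖ 1)
  refine ⟨|K| * (√C4 * √C) + 1, by positivity, fun v hv => ?_⟩
  obtain ⟨hi4, hb4⟩ := h4 v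
  obtain ⟨hi2, hb2⟩ := h2 u v (le_max_left _ _) (hv.trans (le_max_right _ _))
  have hI1 : Integrable (fun x => h x * Real.exp (ι (u + v) x) - h x * Real.exp (ι u x)) vol :=
    (integrable_G hE hm hK _).sub (integrable_G hE hm hK _)
  have e0 : (∫ x, h x * Real.exp (ι (u + v) x) ∂vol) - (∫ x, h x * Real.exp (ι u x) ∂vol)
      - inner ℝ (GG hE hm hK u) (ι v) = ∫ x, (h x * Real.exp (ι (u + v) x)
        - h x * Real.exp (ι u x) - h x * Real.exp (ι u x) * ι v x) ∂vol := by
    rw [inner_GG, integral_sub hI1 (integrable_GG_mul hE hm hK _ _),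
      integral_sub (integrable_G hE hm hK _) (integrable_G hE hm hK _)]
  rw [e0]
  have hA : MemLp (fun x => (ι v x) ^ 2) 2 vol := by
    refine memLp2_of_sq_le (g := fun x => |ι v x| ^ 4)
      ((meas_Lp _).pow_const 2).aestronglyMeasurable hi4 fun x => ?_
    rw [← sq_abs (ι v x)]
    apply le_of_eq; ring
  have hB : MemLp (fun x => Real.exp (|ι u x| + |ι v x|)) 2 vol := by
    refine memLp2_of_sq_le (g := fun x => Real.exp (2 * (|ι u x| + |ι v x|)))
      ((meas_Lp _).abs.add (meas_Lp _).abs).exp.aestronglyMeasurable hi2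
      fun x => ?_
    rw [← Real.exp_nat_mul]
    apply le_of_eq
    norm_num
  have hcs := cs hA hB
  have hA2 : ∫ x, ((ι v x) ^ 2) ^ 2 ∂vol ≤ C4 * ‖v‖ ^ 4 := by
    refine le_trans (le_of_eq ?_) hb4
    refine integral_congr_ae (Eventually.of_forall fun x => ?_)
    simp only
    rw [← sq_abs (ι v x)]
    ring
  have hB2 : ∫ x, (Real.exp (|ι u x| + |ι v x|)) ^ 2 ∂vol ≤ C := by
    refine le_trans (le_of_eq ?_) hb2
    refine integral_congr_ae (Eventually.of_forall fun x => ?_)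
    simp only
    rw [← Real.exp_nat_mul]
    norm_num
  have hint : Integrable (fun x => (ι v x) ^ 2 * Real.exp (|ι u x| + |ι v x|)) vol :=
    hA.integrable_mul hB
  have hpt : ∀ᵐ x ∂vol, |h x * Real.exp (ι (u + v) x) - h x * Real.exp (ι u x)
      - h x * Real.exp (ι u x) * ι v x| ≤
      |K| * ((ι v x) ^ 2 * Real.exp (|ι u x| + |ι v x|)) := by
    rw [map_add]
    filter_upwards [Lp.coeFn_add (ι u) (ι v)] with x hx
    rw [hx]
    simp only [Pi.add_apply]
    have e1 : h x * Real.exp (ι u x + ι v x) - h x * Real.exp (ι u x)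
        - h x * Real.exp (ι u x) * ι v x
        = h x * (Real.exp (ι u x) * (Real.exp (ι v x) - 1 - ι v x)) := by
      rw [Real.exp_add]; ring
    rw [e1, abs_mul, abs_mul, abs_of_pos (Real.exp_pos _)]
    have e2 : Real.exp (ι u x) * |Real.exp (ι v x) - 1 - ι v x| ≤
        (ι v x) ^ 2 * Real.exp (|ι u x| + |ι v x|) := by
      rw [Real.exp_add]
      calc Real.exp (ι u x) * |Real.exp (ι v x) - 1 - ι v x|
          ≤ Real.exp |ι u x| * ((ι v x) ^ 2 * Real.exp |ι v x|) :=
            mul_le_mul (Real.exp_le_exp.mpr (le_abs_self _)) (abs_exp_sub_le _) (abs_nonneg _)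
              (Real.exp_pos _).le
        _ = _ := by ring
    exact mul_le_mul ((hK x).trans (le_abs_self K)) e2 (by positivity) (abs_nonneg _)
  have hI : Integrable (fun x => h x * Real.exp (ι (u + v) x) - h x * Real.exp (ι u x)
      - h x * Real.exp (ι u x) * ι v x) vol :=
    ((integrable_G hE hm hK _).sub (integrable_G hE hm hK _)).sub
      (integrable_GG_mul hE hm hK _ _)
  calc |∫ x, (h x * Real.exp (ι (u + v) x) - h x * Real.exp (ι u x)
      - h x * Real.exp (ι u x) * ι v x) ∂vol|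
      ≤ ∫ x, |h x * Real.exp (ι (u + v) x) - h x * Real.exp (ι u x)
      - h x * Real.exp (ι u x) * ι v x| ∂vol := abs_integral_le_integral_abs
    _ ≤ ∫ x, |K| * ((ι v x) ^ 2 * Real.exp (|ι u x| + |ι v x|)) ∂vol :=
        integral_mono_ae hI.abs (hint.const_mul _) hpt
    _ = |K| * ∫ x, ((ι v x) ^ 2 * Real.exp (|ι u x| + |ι v x|)) ∂vol := integral_const_mul _ _
    _ ≤ |K| * (√(C4 * ‖v‖ ^ 4) * √C) := by
        gcongr
        refine (le_abs_self _).trans (hcs.trans ?_)
        gcongr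
    _ = |K| * (√C4 * √C) * ‖v‖ ^ 2 := by
        rw [Real.sqrt_mul hC4.le, show ‖v‖ ^ 4 = (‖v‖ ^ 2) ^ 2 by ring,
          Real.sqrt_sq (sq_nonneg _)]
        ring
    _ ≤ (|K| * (√C4 * √C) + 1) * ‖v‖ ^ 2 := by
        gcongr
        linarith

theorem hasFDerivAt_FF (u : H) : HasFDerivAt (fun w : H => ∫ x, h x * Real.exp (ι w x) ∂vol)
    ((innerSL ℝ (GG hE hm hK u)).comp ι) u := by
  obtain ⟨C, hC, hb⟩ := FF_expand hE hm hK u
  rw [hasFDerivAt_iff_isLittleO_nhds_zero]
  have h1 : (fun v : H => (∫ x, h x * Real.exp (ι (u + v) x) ∂vol)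
      - (∫ x, h x * Real.exp (ι u x) ∂vol) - ((innerSL ℝ (GG hE hm hK u)).comp ι) v)
      =O[𝓝 0] fun v => ‖v‖ ^ 2 := by
    refine Asymptotics.IsBigO.of_bound C ?_
    have : Metric.closedBall (0 : H) 1 ∈ 𝓝 (0 : H) := Metric.closedBall_mem_nhds _ one_pos
    filter_upwards [this] with v hv
    rw [Metric.mem_closedBall, dist_zero_right] at hv
    have := hb v hv
    simpa using this
  refine h1.trans_isLittleO ?_
  have h2 : (fun v : H => ‖v‖ ^ 2) =o[𝓝 0] fun v => v := by
    have := Asymptotics.isLittleO_norm_pow_id (E' := H) (n := 2) one_lt_two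
    exact this
  exact h2

theorem continuous_GG : Continuous (GG hE hm hK) := by
  rw [continuous_iff_continuousAt]
  intro u
  obtain ⟨C, hC, hb⟩ := GG_lip hE hm hK (‖u‖ + 1)
  rw [Metric.continuousAt_iff']
  intro ε hε
  have h1 : ∀ᶠ v in 𝓝 u, dist v u < min 1 (ε / C) := by
    have : 0 < min 1 (ε / C) := lt_min one_pos (by positivity)
    exact Metric.ball_mem_nhds u this
  filter_upwards [h1] with v hv
  have hv1 : dist v u < 1 := hv.trans_le (min_le_left _ _)
  have hv2 : dist v u < ε / C := hv.trans_le (min_le_right _ _)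
  rw [dist_eq_norm] at hv1 hv2 ⊢
  have hvn : ‖v‖ ≤ ‖u‖ + 1 := by
    have : ‖v‖ ≤ ‖v - u‖ + ‖u‖ := by
      have := norm_add_le (v - u) u
      simpa using this
    linarith
  have := hb v u hvn (by linarith)
  calc ‖GG hE hm hK v - GG hE hm hK u‖ ≤ C * ‖v - u‖ := this
    _ < C * (ε / C) := by gcongr
    _ = ε := by field_simp

variable (hpos : ∀ x, 0 < h x)
include hpos

theorem FF_pos (u : H) : 0 < ∫ x, h x * Real.exp (ι u x) ∂vol := by
  rw [integral_pos_iff_support_of_nonneg (fun x => by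
    have := hpos x
    positivity) (integrable_G hE hm hK u)]
  have : Function.support (fun x => h x * Real.exp (ι u x)) = Set.univ := by
    ext x
    simp [Function.mem_support, (hpos x).ne']
  rw [this]
  simp

end G

section J

variable {M : Type*} [MeasurableSpace M] {vol : Measure M} [IsProbabilityMeasure vol]
  {H : Type*} [NormedAddCommGroup H] [InnerProductSpace ℝ H]

/-- The functional `J`. -/
noncomputable def JJ (ι : H →L[ℝ] Lp ℝ 2 vol) (h : M → ℝ) (lam : ℝ) (u : H) : ℝ :=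
  (1 / 2) * (‖u‖ ^ 2 - ‖ι u‖ ^ 2) + lam * (∫ x, ι u x ∂vol)
    - lam * Real.log (∫ x, h x * Real.exp (ι u x) ∂vol)

variable (vol) in
/-- The constant function one in `L²`. -/
noncomputable def one2 : Lp ℝ 2 vol := (memLp_const (1 : ℝ)).toLp _

theorem inner_one2 (f : Lp ℝ 2 vol) : inner ℝ (one2 vol) f = ∫ x, f x ∂vol := by
  rw [L2.inner_def]
  refine integral_congr_ae ?_
  filter_upwards [(memLp_const (μ := vol) (p := 2) (1 : ℝ)).coeFn_toLp] with x hx
  rw [one2, hx]
  simp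

variable {ι : H →L[ℝ] Lp ℝ 2 vol} (hE : ExpBd ι) {h : M → ℝ} (hm : Measurable h) {K : ℝ}
  (hK : ∀ x, |h x| ≤ K) (lam : ℝ)

/-- The derivative of `J`. -/
noncomputable def dJ (u : H) : H →L[ℝ] ℝ :=
  innerSL ℝ u - (innerSL ℝ (ι u)).comp ι + lam • (innerSL ℝ (one2 vol)).comp ι
    - (lam * (∫ x, h x * Real.exp (ι u x) ∂vol)⁻¹) • (innerSL ℝ (GG hE hm hK u)).comp ι

theorem dJ_apply (u v : H) : dJ hE hm hK lam u v =
    inner ℝ u v - inner ℝ (ι u) (ι v) + lam * (∫ x, ι v x ∂vol)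
      - lam * ((∫ x, h x * Real.exp (ι u x) ∂vol)⁻¹
        * ∫ x, h x * Real.exp (ι u x) * ι v x ∂vol) := by
  rw [← inner_one2, ← inner_GG hE hm hK]
  simp [dJ, mul_assoc]

variable (hpos : ∀ x, 0 < h x)
include hpos

theorem hasFDerivAt_JJ (u : H) : HasFDerivAt (JJ ι h lam) (dJ hE hm hK lam u) u := by
  have h1 : HasFDerivAt (fun w : H => ‖w‖ ^ 2) (2 • innerSL ℝ u) u :=
    (hasStrictFDerivAt_norm_sq u).hasFDerivAt
  have h2 : HasFDerivAt (fun w : H => ‖ι w‖ ^ 2) ((2 • innerSL ℝ (ι u)).comp ι) u :=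
    (hasStrictFDerivAt_norm_sq (ι u)).hasFDerivAt.comp u ι.hasFDerivAt
  have h3 : HasFDerivAt (fun w : H => ∫ x, ι w x ∂vol) ((innerSL ℝ (one2 vol)).comp ι) u := by
    have := ((innerSL ℝ (one2 vol)).comp ι).hasFDerivAt (x := u)
    refine this.congr_of_eventuallyEq (Eventually.of_forall fun w => ?_)
    exact (inner_one2 (ι w)).symm
  have h4 := (hasFDerivAt_FF hE hm hK u).log (FF_pos hE hm hK hpos u).ne'
  have h5 := (((h1.sub h2).const_mul (1 / 2)).add (h3.const_mul lam)).sub (h4.const_mul lam)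
  have h6 : dJ hE hm hK lam u = (1 / 2 : ℝ) • (2 • innerSL ℝ u - (2 • innerSL ℝ (ι u)).comp ι)
      + lam • ((innerSL ℝ (one2 vol)).comp ι)
      - lam • ((∫ x, h x * Real.exp (ι u x) ∂vol)⁻¹ • (innerSL ℝ (GG hE hm hK u)).comp ι) := by
    ext v
    simp [dJ]
    ring
  rw [h6]
  exact h5

theorem continuous_dJ : Continuous (dJ hE hm hK lam) := by
  unfold dJ
  have h1 : Continuous fun u : H => (∫ x, h x * Real.exp (ι u x) ∂vol)⁻¹ := by
    rw [continuous_iff_continuousAt]
    intro u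
    exact ((hasFDerivAt_FF hE hm hK u).continuousAt).inv₀ (FF_pos hE hm hK hpos u).ne'
  have h2 : Continuous (fun u : H => (innerSL ℝ (GG hE hm hK u)).comp ι) := by
    have := (innerSL ℝ (E := Lp ℝ 2 vol)).continuous.comp (continuous_GG hE hm hK)
    exact this.clm_comp continuous_const
  have h3 : Continuous (fun u : H => (innerSL ℝ (ι u)).comp ι) := by
    have := (innerSL ℝ (E := Lp ℝ 2 vol)).continuous.comp ι.continuous
    exact this.clm_comp continuous_const
  have h4 : Continuous (fun u : H => innerSL ℝ u) := (innerSL ℝ (E := H)).continuous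
  exact ((h4.sub h3).add continuous_const).sub ((continuous_const.mul h1).smul h2)

include hE hm hK in
theorem contDiff_JJ : ContDiff ℝ 1 (JJ ι h lam) := by
  rw [contDiff_one_iff_hasFDerivAt]
  exact ⟨dJ hE hm hK lam, continuous_dJ hE hm hK lam hpos, hasFDerivAt_JJ hE hm hK lam hpos⟩

theorem fderiv_JJ (u : H) : fderiv ℝ (JJ ι h lam) u = dJ hE hm hK lam u :=
  (hasFDerivAt_JJ hE hm hK lam hpos u).fderiv

end J

end Pool.Agent.Helper9.PS
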