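import Pool.Agent.Helper93.PS.R0

/-!
# The Sobolev space `H1(M)` of a closed Riemannian surface
-/

open MeasureTheory Set Manifold Bundle Filter Topology
open scoped ContDiff ENNReal

set_option linter.unusedSectionVars false

namespace Pool.Agent.Helper9.PS
open Pool.Agent.Helper41.PS Pool.Agent.Helper93.PS

section Defs

variable {M : Type*} [TopologicalSpace M] [T2Space M] [CompactSpace M] [ChartedSpace E2 M]
  [IsManifold (𝓡 2) ∞ M] [RiemannianBundle (fun x : M => TangentSpace (𝓡 2) x)]
  [IsContMDiffRiemannianBundle (𝓡 2) ∞ E2 (fun x : M => TangentSpace (𝓡 2) x)]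
  [MeasurableSpace M] [BorelSpace M]

/-- The smooth functions on `M`; a type synonym which will carry the `H1` inner product. -/
def PreH1 (_vol : Measure M) : Type _ := C^∞⟮𝓡 2, M; 𝓘(ℝ, ℝ), ℝ⟯

variable (vol : Measure M)

noncomputable instance : AddCommGroup (PreH1 vol) :=
  inferInstanceAs (AddCommGroup (C^∞⟮𝓡 2, M; 𝓘(ℝ, ℝ), ℝ⟯))

noncomputable instance : Module ℝ (PreH1 vol) :=
  inferInstanceAs (Module ℝ (C^∞⟮𝓡 2, M; 𝓘(ℝ, ℝ), ℝ⟯))

variable {vol}

/-- The underlying function of a smooth function. -/
def PreH1.toFun (u : PreH1 vol) : M → ℝ := u.1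

/-- A smooth function as an element of `PreH1`. -/
def PreH1.mk (u : M → ℝ) (hu : ContMDiff (𝓡 2) 𝓘(ℝ, ℝ) ∞ u) : PreH1 vol := ⟨u, hu⟩

theorem PreH1.smooth (u : PreH1 vol) : ContMDiff (𝓡 2) 𝓘(ℝ, ℝ) ∞ u.toFun := u.2

theorem PreH1.continuous (u : PreH1 vol) : Continuous u.toFun := u.smooth.continuous

theorem PreH1.mdiff (u : PreH1 vol) (x : M) : MDifferentiableAt (𝓡 2) 𝓘(ℝ, ℝ) u.toFun x :=
  (u.smooth x).mdifferentiableAt (by simp)

theorem PreH1.add_toFun (u v : PreH1 vol) : (u + v).toFun = fun x => u.toFun x + v.toFun x := rfl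
theorem PreH1.sub_toFun (u v : PreH1 vol) : (u - v).toFun = fun x => u.toFun x - v.toFun x := rfl
theorem PreH1.smul_toFun (c : ℝ) (u : PreH1 vol) : (c • u).toFun = fun x => c * u.toFun x := rfl
theorem PreH1.mk_toFun (u : M → ℝ) (hu : ContMDiff (𝓡 2) 𝓘(ℝ, ℝ) ∞ u) :
    (PreH1.mk u hu : PreH1 vol).toFun = u := rfl

variable [IsFiniteMeasure vol]

theorem integrable_cont {f : M → ℝ} (hf : Continuous f) : Integrable f vol :=
  hf.integrable_of_hasCompactSupport (HasCompactSupport.of_compactSpace f)

variable (vol) in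
/-- The `H1` inner product of smooth functions, `∫ u v + ∫ ⟨∇u, ∇v⟩`. -/
noncomputable def h1Inner (u v : PreH1 vol) : ℝ :=
  (∫ x, u.toFun x * v.toFun x ∂vol) + ∫ x, inner ℝ (grad u.toFun x) (grad v.toFun x) ∂vol

noncomputable instance : PreInnerProductSpace.Core ℝ (PreH1 vol) where
  inner u v := h1Inner vol u v
  conj_inner_symm u v := by
    simp only [h1Inner, conj_trivial]
    congr 1
    · exact integral_congr_ae (Eventually.of_forall fun x => mul_comm _ _)
    · exact integral_congr_ae (Eventually.of_forall fun x => real_inner_comm _ _)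
  re_inner_nonneg u := by
    simp only [h1Inner, RCLike.re_to_real]
    apply add_nonneg
    · exact integral_nonneg fun x => mul_self_nonneg _
    · exact integral_nonneg fun x => real_inner_self_nonneg
  add_left u v w := by
    simp only [h1Inner]
    have h1 : ∫ x, (u + v).toFun x * w.toFun x ∂vol =
        (∫ x, u.toFun x * w.toFun x ∂vol) + ∫ x, v.toFun x * w.toFun x ∂vol := by
      rw [← integral_add
        (integrable_cont (f := fun x => u.toFun x * w.toFun x) (u.continuous.mul w.continuous))
        (integrable_cont (f := fun x => v.toFun x * w.toFun x) (v.continuous.mul w.continuous))]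
      refine integral_congr_ae (Eventually.of_forall fun x => ?_)
      simp only [PreH1.add_toFun]
      ring
    have h2 : ∫ x, inner ℝ (grad (u + v).toFun x) (grad w.toFun x) ∂vol =
        (∫ x, inner ℝ (grad u.toFun x) (grad w.toFun x) ∂vol)
          + ∫ x, inner ℝ (grad v.toFun x) (grad w.toFun x) ∂vol := by
      rw [← integral_add (integrable_cont (continuous_inner_grad u.smooth w.smooth))
        (integrable_cont (continuous_inner_grad v.smooth w.smooth))]
      refine integral_congr_ae (Eventually.of_forall fun x => ?_)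
      simp only [PreH1.add_toFun]
      rw [grad_add (u.mdiff x) (v.mdiff x), inner_add_left]
    rw [h1, h2]; ring
  smul_left u v r := by
    simp only [h1Inner, conj_trivial]
    have h1 : ∫ x, (r • u).toFun x * v.toFun x ∂vol = r * ∫ x, u.toFun x * v.toFun x ∂vol := by
      rw [← integral_const_mul]
      refine integral_congr_ae (Eventually.of_forall fun x => ?_)
      simp only [PreH1.smul_toFun]
      ring
    have h2 : ∫ x, inner ℝ (grad (r • u).toFun x) (grad v.toFun x) ∂vol =
        r * ∫ x, inner ℝ (grad u.toFun x) (grad v.toFun x) ∂vol := by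
      rw [← integral_const_mul]
      refine integral_congr_ae (Eventually.of_forall fun x => ?_)
      simp only [PreH1.smul_toFun]
      rw [grad_const_mul (u.mdiff x) r, real_inner_smul_left]
    rw [h1, h2]; ring

noncomputable instance : SeminormedAddCommGroup (PreH1 vol) :=
  InnerProductSpace.Core.toSeminormedAddCommGroup (𝕜 := ℝ)

noncomputable instance : InnerProductSpace ℝ (PreH1 vol) := .ofCore _

theorem PreH1.inner_def (u v : PreH1 vol) : inner ℝ u v = h1Inner vol u v := rfl

theorem PreH1.norm_sq (u : PreH1 vol) : ‖u‖ ^ 2 =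
    (∫ x, u.toFun x ^ 2 ∂vol) + ∫ x, ‖grad u.toFun x‖ ^ 2 ∂vol := by
  rw [← real_inner_self_eq_norm_sq, PreH1.inner_def, h1Inner]
  congr 1
  · exact integral_congr_ae (Eventually.of_forall fun x => (pow_two _).symm)
  · exact integral_congr_ae (Eventually.of_forall fun x => real_inner_self_eq_norm_sq _)

theorem PreH1.norm_eq (u : PreH1 vol) : ‖u‖ =
    √((∫ x, u.toFun x ^ 2 ∂vol) + ∫ x, ‖grad u.toFun x‖ ^ 2 ∂vol) := by
  rw [← PreH1.norm_sq, Real.sqrt_sq (norm_nonneg _)]

theorem memLp_cont {f : M → ℝ} (hf : Continuous f) (p : ℝ≥0∞) : MemLp f p vol :=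
  hf.memLp_of_hasCompactSupport (HasCompactSupport.of_compactSpace f)

theorem norm_toLp_sq {f : M → ℝ} (hf : MemLp f 2 vol) : ‖hf.toLp f‖ ^ 2 = ∫ x, f x ^ 2 ∂vol := by
  rw [← real_inner_self_eq_norm_sq, L2.inner_def]
  refine integral_congr_ae ?_
  filter_upwards [hf.coeFn_toLp] with x hx
  rw [hx, real_inner_self_eq_norm_sq, Real.norm_eq_abs, sq_abs]

variable (vol) in
/-- The inclusion of the smooth functions in `L²(M)`. -/
noncomputable def preL2 : PreH1 vol →L[ℝ] Lp ℝ 2 vol :=
  LinearMap.mkContinuous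
    { toFun := fun u => MemLp.toLp u.toFun (memLp_cont u.continuous 2)
      map_add' := fun _ _ => rfl
      map_smul' := fun _ _ => rfl } 1 (fun u => by
        rw [one_mul]
        refine le_of_sq_le_sq ?_ (norm_nonneg _)
        change ‖MemLp.toLp u.toFun (memLp_cont u.continuous 2)‖ ^ 2 ≤ _
        rw [norm_toLp_sq, PreH1.norm_sq]
        have : 0 ≤ ∫ x, ‖grad u.toFun x‖ ^ 2 ∂vol := integral_nonneg fun x => sq_nonneg _
        linarith)

theorem preL2_apply (u : PreH1 vol) :
    preL2 vol u = MemLp.toLp u.toFun (memLp_cont u.continuous 2) := rfl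

variable (vol) in
/-- The Sobolev space `H1(M)`: the completion of the smooth functions for the norm
`(∫ u² + ∫ |∇u|²)^(1/2)`. -/
abbrev H1 : Type _ := UniformSpace.Completion (PreH1 vol)

variable (vol) in
/-- The inclusion of `H1(M)` in `L²(M)`. -/
noncomputable def toL2 : H1 vol →L[ℝ] Lp ℝ 2 vol :=
  (preL2 vol).extend UniformSpace.Completion.toComplL

theorem toL2_coe (u : PreH1 vol) : toL2 vol (u : H1 vol) = preL2 vol u := by
  have h := ContinuousLinearMap.extend_eq (preL2 vol) (e := UniformSpace.Completion.toComplL)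
    (by simpa using UniformSpace.Completion.denseRange_coe)
    (by simpa using UniformSpace.Completion.isUniformInducing_coe (PreH1 vol)) u
  rw [toL2]
  simpa using h

end Defs

end Pool.Agent.Helper9.PS
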